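import Pool.Agent.H69.LQ.Lib
import Pool.Agent.H99.LK.BUC
import Pool.Agent.H99.LK.SYM
import Pool.Agent.H18.LK.AP
import Pool.Agent.H1.LK.BUD

/-!
# MP_8f7db2_an, board lqm_modules, module UB: the upper bound for the ball
helper49
-/

set_option autoImplicit false

open MeasureTheory Metric Set
open scoped ENNReal

open Pool.Agent.H85.LK (E adm lam Ann)
open Pool.Agent.H69.LQ

namespace Pool.Agent.H49.LQ

open Pool.Agent.H1.LK (hmap radial)

/-- the continuous compactly supported function `f ‖x‖` for `f` supported in `[δ, 1 - δ]` -/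
theorem integrable_radial {N : ℕ} (f : ℝ → ℝ) (hf : Continuous f) (R : ℝ)
    (h1 : ∀ t, R ≤ t → f t = 0) : Integrable (fun x : E N => f ‖x‖) := by
  apply (hf.comp continuous_norm).integrable_of_hasCompactSupport
  apply HasCompactSupport.of_support_subset_isCompact (isCompact_closedBall (0 : E N) R)
  intro x hx
  rw [mem_closedBall, dist_zero_right]
  by_contra hc
  push Not at hc
  exact hx (h1 _ hc.le)

theorem pf_UB (hUA : T_UA) : T_UB := by
  intro N L hN hFz
  have hN1 : 1 ≤ N := by omega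
  have hNR : (2 : ℝ) ≤ N := by exact_mod_cast hN
  have hbdd : BddBelow (adm N (N + 1) (ball (0 : E N) 1)) :=
    ⟨0, fun c hc => Pool.Agent.H18.LK.pf_AP N (N + 1) _ c (by omega) hc⟩
  have hBUC := Pool.Agent.H99.LK.pf_BUC Pool.Agent.H99.LK.pf_SYM
  apply le_of_forall_pos_le_add
  intro ε hε
  obtain ⟨a, δ, ha, ha1, ha2⟩ := hUA N L ε hN hFz hε
  obtain ⟨hsm, hδ, hδ1, h0, h1⟩ := id ha
  set m : ℝ := (N : ℝ) * (volume : Measure (E N)).real (ball 0 1) with hm
  have hm0 : 0 < m := by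
    have hb : 0 < (volume : Measure (E N)).real (ball 0 1) := by
      rw [Measure.real, ENNReal.toReal_pos_iff]
      exact ⟨measure_ball_pos _ _ one_pos, measure_ball_lt_top⟩
    have : (0 : ℝ) < N := by linarith
    positivity
  set X : ℝ := ∫ x : E N, a ‖x‖ ^ 2 with hX
  set Y : ℝ := ∫ x : E N, deriv a ‖x‖ ^ 2 with hY
  set Z : ℝ := ∫ x : E N, a ‖x‖ ^ 2 / ‖x‖ ^ 2 with hZ
  have eX : X = m * ∫ t in Ioi (0 : ℝ), a t ^ 2 * t ^ (N - 1) :=
    radial N hN1 (fun t => a t ^ 2)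
  have hX0 : 0 < X := by rw [eX]; positivity
  have hda : Continuous (deriv a) := hsm.continuous_deriv (by simp)
  have hac : Continuous a := hsm.continuous
  have hd1 : ∀ t, 1 ≤ t → deriv a t = 0 := by
    intro t ht
    have : a =ᶠ[nhds t] fun _ => 0 := by
      filter_upwards [lt_mem_nhds (show 1 - δ < t by linarith)] with s hs
      exact h1 s hs.le
    rw [this.deriv_eq, deriv_const]
  have hq : Continuous (fun t => a t ^ 2 / t ^ 2) := by
    rw [continuous_iff_continuousAt]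
    intro t
    rcases lt_or_ge t δ with ht | ht
    · have : (fun t => a t ^ 2 / t ^ 2) =ᶠ[nhds t] fun _ => 0 := by
        filter_upwards [gt_mem_nhds ht] with s hs
        rw [h0 s hs.le]; simp
      exact this.continuousAt
    · apply ContinuousAt.div (hac.pow 2).continuousAt (continuous_pow 2).continuousAt
      have : 0 < t := by linarith
      positivity
  have iY : Integrable (fun x : E N => deriv a ‖x‖ ^ 2) :=
    integrable_radial (fun t => deriv a t ^ 2) (hda.pow 2) 1 (fun t ht => by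
      simp [hd1 t ht])
  have iZ : Integrable (fun x : E N => a ‖x‖ ^ 2 / ‖x‖ ^ 2) :=
    integrable_radial (fun t => a t ^ 2 / t ^ 2) hq 1 (fun t ht => by
      simp [h1 t (by linarith)])
  have hY0 : 0 ≤ Y := integral_nonneg fun x => by positivity
  have hZ0 : 0 ≤ Z := integral_nonneg fun x => by positivity
  have hYZ : Y + ((N : ℝ) - 1) * Z ≤ (L + ε) * X := by
    have e1 : Y + ((N : ℝ) - 1) * Z =
        ∫ x : E N, (deriv a ‖x‖ ^ 2 + ((N : ℝ) - 1) * a ‖x‖ ^ 2 / ‖x‖ ^ 2) := by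
      rw [hY, hZ, ← integral_const_mul, ← integral_add iY (iZ.const_mul _)]
      congr 1
      funext x
      rw [mul_div_assoc]
    rw [e1, radial N hN1 (fun t => deriv a t ^ 2 + ((N : ℝ) - 1) * a t ^ 2 / t ^ 2), eX]
    calc _ ≤ m * ((L + ε) * ∫ t in Ioi (0 : ℝ), a t ^ 2 * t ^ (N - 1)) :=
          mul_le_mul_of_nonneg_left ha2 hm0.le
      _ = _ := by ring
  -- the subspace
  apply csInf_le hbdd
  refine ⟨LinearMap.range (hmap N a), ?_, ?_⟩
  · have hinj : Function.Injective (hmap N a) := by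
      rw [← LinearMap.ker_eq_bot, LinearMap.ker_eq_bot']
      rintro ⟨α, β⟩ hz
      obtain ⟨-, -, -, h4, -⟩ := hBUC N a δ α β hN1 ha
      have e0 : (fun x : E N => (α + inner ℝ β x / ‖x‖) * a ‖x‖) = 0 := hz
      have e1 : ∫ x : E N, ((α + inner ℝ β x / ‖x‖) * a ‖x‖) ^ 2 = 0 := by
        have : ∀ x : E N, ((α + inner ℝ β x / ‖x‖) * a ‖x‖) ^ 2 = 0 := by
          intro x
          have := congrFun e0 x
          simp only [Pi.zero_apply] at this
          rw [this]; ring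
        simp only [this, integral_zero]
      rw [e1] at h4
      have h5 : α ^ 2 + ‖β‖ ^ 2 / N = 0 := by
        rcases mul_eq_zero.1 h4.symm with h | h
        · exact h
        · exact absurd h hX0.ne'
      have h6 : 0 ≤ ‖β‖ ^ 2 / N := by positivity
      have h7 : α ^ 2 = 0 := by nlinarith [sq_nonneg α]
      have h8 : ‖β‖ ^ 2 / N = 0 := by nlinarith [sq_nonneg α]
      have h9 : ‖β‖ ^ 2 = 0 := by
        rcases div_eq_zero_iff.1 h8 with h | h
        · exact h
        · exfalso; linarith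
      have h10 : β = 0 := by
        rw [← norm_eq_zero]; exact pow_eq_zero_iff (two_ne_zero) |>.1 h9
      have h11 : α = 0 := pow_eq_zero_iff (two_ne_zero) |>.1 h7
      rw [h10, h11]; rfl
    rw [LinearMap.finrank_range_of_inj hinj, Module.finrank_prod, finrank_euclideanSpace_fin,
      Module.finrank_self, add_comm]
  · rintro v ⟨⟨α, β⟩, rfl⟩
    obtain ⟨g1, g2, g3, g4, g5⟩ := hBUC N a δ α β hN1 ha
    refine ⟨g1, g2, g3, ?_⟩
    change ∫ x : E N, ‖fderiv ℝ (fun x : E N => (α + inner ℝ β x / ‖x‖) * a ‖x‖) x‖ ^ 2 ≤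
      (L + ε) * ∫ x : E N, ((α + inner ℝ β x / ‖x‖) * a ‖x‖) ^ 2
    rw [g4, g5, ← hX, ← hY, ← hZ]
    have hN0 : (N : ℝ) ≠ 0 := by linarith
    have hS0 : 0 ≤ α ^ 2 + ‖β‖ ^ 2 / N := by positivity
    have e2 : ‖β‖ ^ 2 * (1 - 1 / (N : ℝ)) * Z = ‖β‖ ^ 2 / N * (((N : ℝ) - 1) * Z) := by
      field_simp
    have h3 : ‖β‖ ^ 2 / N * (((N : ℝ) - 1) * Z) ≤
        (α ^ 2 + ‖β‖ ^ 2 / N) * (((N : ℝ) - 1) * Z) := by
      apply mul_le_mul_of_nonneg_right
      · nlinarith [sq_nonneg α]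
      · exact mul_nonneg (by linarith) hZ0
    calc (α ^ 2 + ‖β‖ ^ 2 / N) * Y + ‖β‖ ^ 2 * (1 - 1 / (N : ℝ)) * Z
        ≤ (α ^ 2 + ‖β‖ ^ 2 / N) * (Y + ((N : ℝ) - 1) * Z) := by rw [e2]; linarith
      _ ≤ (α ^ 2 + ‖β‖ ^ 2 / N) * ((L + ε) * X) := mul_le_mul_of_nonneg_left hYZ hS0
      _ = _ := by ring

end Pool.Agent.H49.LQ
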